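import Mathlib

/-! Extension of local structures: if every finite set can be moved into `U`, local equivariance
on `U` extends to the whole space. -/

set_option autoImplicit false

open Filter Topology Set

namespace Pool.TH345.LC

section

variable {G : Type} [Group G] {X : Type} [TopologicalSpace X] {Y : Type} {M : Type} [Group M]
  [MulAction M Y]

theorem act_mul' (α : G →* (X ≃ₜ X)) (g h : G) (x : X) : α (g * h) x = α g (α h x) := by
  rw [map_mul]; rfl

theorem act_one' (α : G →* (X ≃ₜ X)) (x : X) : α 1 x = x := by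
  rw [map_one]; rfl

theorem extend (α : G →* (X ≃ₜ X)) {U : Set X} (hU : IsOpen U) (hne : U.Nonempty)
    (hfp : ∀ P : Set X, P.Finite → ∃ h : G, ∀ x ∈ P, α h x ∈ U) (φ : X → Y)
    (hloc : ∀ g : G, ∃ m : M, ∀ x ∈ U, α g x ∈ U → φ (α g x) = m • φ x)
    (huniq : ∀ (m m' : M) (W : Set X), IsOpen W → W.Nonempty → W ⊆ U →
      (∀ x ∈ W, m • φ x = m' • φ x) → m = m') :
    ∃ (ρ : G →* M) (f : X → Y), (∀ x ∈ U, f x = φ x) ∧ ∀ g x, f (α g x) = ρ g • f x := by
  classical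
  choose T hT using hloc
  obtain ⟨u, hu⟩ := hne
  -- the cocycle relation
  have hK : ∀ (h h' : G) (y : X), y ∈ U → α h y ∈ U → α h' y ∈ U → T h' = T (h' * h⁻¹) * T h := by
    intro h h' y hy h1 h2
    have hW : IsOpen (U ∩ (α h ⁻¹' U ∩ α h' ⁻¹' U)) :=
      hU.inter ((hU.preimage (α h).continuous).inter (hU.preimage (α h').continuous))
    refine huniq _ _ _ hW ⟨y, hy, h1, h2⟩ inter_subset_left ?_
    rintro x ⟨hx, hx1, hx2⟩
    have h3 : α (h' * h⁻¹) (α h x) = α h' x := by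
      rw [← act_mul', inv_mul_cancel_right]
    rw [← hT h' x hx hx2, mul_smul, ← hT h x hx hx1, ← hT (h' * h⁻¹) (α h x) hx1 (by rw [h3]; exact hx2),
      h3]
  -- evaluation
  have hval : ∀ (x : X) (h h' : G) (y y' : X), y ∈ U → α h y ∈ U → α h x ∈ U → y' ∈ U →
      α h' y' ∈ U → α h' x ∈ U → (T h)⁻¹ • φ (α h x) = (T h')⁻¹ • φ (α h' x) := by
    have key : ∀ (x : X) (h k : G) (y : X), y ∈ U → α h y ∈ U → α h x ∈ U → α k y ∈ U →
        α k x ∈ U → (T h)⁻¹ • φ (α h x) = (T k)⁻¹ • φ (α k x) := by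
      intro x h k y hy h1 h2 h3 h4
      have h5 : α (k * h⁻¹) (α h x) = α k x := by rw [← act_mul', inv_mul_cancel_right]
      have h6 := hT (k * h⁻¹) (α h x) h2 (by rw [h5]; exact h4)
      rw [h5] at h6
      rw [h6, hK h k y hy h1 h3, mul_inv_rev, mul_smul, inv_smul_smul]
    intro x h h' y y' hy h1 h2 hy' h1' h2'
    obtain ⟨k, hk⟩ := hfp {x, y, y'} (by simp)
    rw [key x h k y hy h1 h2 (hk y (by simp)) (hk x (by simp)),
      key x h' k y' hy' h1' h2' (hk y' (by simp)) (hk x (by simp))]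
  have hrep : ∀ (g h h' : G) (y y' z z' : X), y ∈ U → α h y ∈ U → y' ∈ U → α h' y' ∈ U →
      z ∈ U → α (h * g) z ∈ U → z' ∈ U → α (h' * g) z' ∈ U →
      (T h)⁻¹ * T (h * g) = (T h')⁻¹ * T (h' * g) := by
    have key : ∀ (g h k : G) (y z : X), y ∈ U → α h y ∈ U → z ∈ U → α (h * g) z ∈ U →
        α k y ∈ U → α (k * g) z ∈ U → (T h)⁻¹ * T (h * g) = (T k)⁻¹ * T (k * g) := by
      intro g h k y z hy h1 hz h2 h3 h4
      rw [hK h k y hy h1 h3, hK (h * g) (k * g) z hz h2 h4,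
        show k * g * (h * g)⁻¹ = k * h⁻¹ by group]
      group
    intro g h h' y y' z z' hy h1 hy' h1' hz h2 hz' h2'
    obtain ⟨k, hk⟩ := hfp {y, y', α g z, α g z'} (by simp)
    rw [key g h k y z hy h1 hz h2 (hk y (by simp)) (by rw [act_mul']; exact hk _ (by simp)),
      key g h' k y' z' hy' h1' hz' h2' (hk y' (by simp)) (by rw [act_mul']; exact hk _ (by simp))]
  -- choices
  have hx : ∀ x, ∃ h : G, α h x ∈ U ∧ α h u ∈ U := by
    intro x
    obtain ⟨h, hh⟩ := hfp {x, u} (by simp)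
    exact ⟨h, hh x (by simp), hh u (by simp)⟩
  choose H hH1 hH2 using hx
  have hg : ∀ g : G, ∃ h : G, α h u ∈ U ∧ α (h * g) u ∈ U := by
    intro g
    obtain ⟨h, hh⟩ := hfp {u, α g u} (by simp)
    exact ⟨h, hh u (by simp), by rw [act_mul']; exact hh _ (by simp)⟩
  choose R hR1 hR2 using hg
  have hT1 : T 1 = 1 := by
    refine huniq _ _ U hU ⟨u, hu⟩ subset_rfl fun x hx => ?_
    rw [← hT 1 x hx (by rw [act_one']; exact hx), act_one', one_smul]
  have hmul : ∀ g₁ g₂ : G, (T (R (g₁ * g₂)))⁻¹ * T (R (g₁ * g₂) * (g₁ * g₂)) =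
      ((T (R g₁))⁻¹ * T (R g₁ * g₁)) * ((T (R g₂))⁻¹ * T (R g₂ * g₂)) := by
    intro g₁ g₂
    obtain ⟨h, hh⟩ := hfp {u, α g₁ u, α (g₁ * g₂) u} (by simp)
    have h0 : α h u ∈ U := hh u (by simp)
    have h1 : α (h * g₁) u ∈ U := by rw [act_mul']; exact hh _ (by simp)
    have h2 : α (h * (g₁ * g₂)) u ∈ U := by rw [act_mul']; exact hh _ (by simp)
    have h2' : α (h * g₁ * g₂) u ∈ U := by rw [mul_assoc]; exact h2
    rw [hrep (g₁ * g₂) _ h u u u u hu (hR1 _) hu h0 hu (hR2 _) hu h2,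
      hrep g₁ _ h u u u u hu (hR1 _) hu h0 hu (hR2 _) hu h1,
      hrep g₂ _ (h * g₁) u u u u hu (hR1 _) hu h1 hu (hR2 _) hu h2', ← mul_assoc h g₁ g₂]
    group
  have hone : (T (R 1))⁻¹ * T (R 1 * 1) = 1 := by
    rw [mul_one, inv_mul_cancel]
  refine ⟨{ toFun := fun g => (T (R g))⁻¹ * T (R g * g), map_one' := hone, map_mul' := hmul },
    fun x => (T (H x))⁻¹ • φ (α (H x) x), fun x hx => ?_, fun g x => ?_⟩
  · change (T (H x))⁻¹ • φ (α (H x) x) = φ x
    rw [hval x (H x) 1 u u hu (hH2 x) (hH1 x) hu (by rw [act_one']; exact hu)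
      (by rw [act_one']; exact hx), hT1, act_one', inv_one, one_smul]
  · change (T (H (α g x)))⁻¹ • φ (α (H (α g x)) (α g x)) =
      ((T (R g))⁻¹ * T (R g * g)) • ((T (H x))⁻¹ • φ (α (H x) x))
    obtain ⟨h, hh⟩ := hfp {u, α g u, α g x} (by simp)
    have h0 : α h u ∈ U := hh u (by simp)
    have h1 : α (h * g) u ∈ U := by rw [act_mul']; exact hh _ (by simp)
    have h2 : α h (α g x) ∈ U := hh _ (by simp)
    have h2' : α (h * g) x ∈ U := by rw [act_mul']; exact h2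
    rw [hval (α g x) _ h u u hu (hH2 _) (hH1 _) hu h0 h2,
      hval x _ (h * g) u u hu (hH2 _) (hH1 _) hu h1 h2',
      hrep g _ h u u u u hu (hR1 _) hu h0 hu (hR2 _) hu h1, mul_smul, smul_inv_smul, act_mul']

end

end Pool.TH345.LC
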