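import Pool.Agent.TH289.C.C6

/-! The group of isometries of hyperbolic space and its action on the sphere. -/

set_option autoImplicit false

open Filter Topology Set Pool.Agent.TH289.C

namespace Pool.TH345.LC

section

variable {E : Type} [NormedAddCommGroup E] [InnerProductSpace ℝ E]

theorem base_mem : ((1 : ℝ), (0 : E)) ∈ Lc E := by simp [Lc]

theorem qf_neg (v : ℝ × E) : qf (-v) = qf v := by simp [qf]

theorem isIso_mul {T S : (ℝ × E) ≃L[ℝ] (ℝ × E)} (hT : IsIso T) (hS : IsIso S) :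
    IsIso (T * S) := by
  refine ⟨fun v => ?_, ?_⟩
  · change qf (T (S v)) = qf v
    rw [hT.1, hS.1]
  · have h := isIso_pres hT (isIso_pres hS base_mem)
    exact (mem_Lc_iff.1 h).2

theorem isIso_one : IsIso (1 : (ℝ × E) ≃L[ℝ] (ℝ × E)) :=
  ⟨fun _ => rfl, by change (0 : ℝ) < 1; norm_num⟩

theorem isIso_inv {T : (ℝ × E) ≃L[ℝ] (ℝ × E)} (hT : IsIso T) : IsIso T⁻¹ := by
  have h1 : ∀ v, T (T⁻¹ v) = v := fun v => T.apply_symm_apply v
  have h2 : ∀ v, qf (T⁻¹ v) = qf v := by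
    intro v
    rw [← hT.1 (T⁻¹ v), h1]
  refine ⟨h2, ?_⟩
  by_contra hcon
  have hq : 0 < qf (T⁻¹ ((1 : ℝ), (0 : E))) := by
    rw [h2]
    simp [qf]
  have hneg : -(T⁻¹ ((1 : ℝ), (0 : E))) ∈ Lc E := by
    rw [mem_Lc_iff]
    refine ⟨by rw [qf_neg]; exact hq, ?_⟩
    have h0 : (T⁻¹ ((1 : ℝ), (0 : E))).1 ≠ 0 := by
      intro h0
      unfold qf at hq
      rw [h0] at hq
      nlinarith [norm_nonneg (T⁻¹ ((1 : ℝ), (0 : E))).2]
    have : (T⁻¹ ((1 : ℝ), (0 : E))).1 < 0 := lt_of_le_of_ne (not_lt.1 hcon) h0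
    simpa using this
  have h3 := isIso_pres hT hneg
  rw [map_neg, h1] at h3
  have h4 := (mem_Lc_iff.1 h3).2
  simp at h4
  linarith

variable (E) in
/-- The group of isometries of hyperbolic space. -/
def IsoGrp : Subgroup ((ℝ × E) ≃L[ℝ] (ℝ × E)) where
  carrier := {T | IsIso T}
  mul_mem' := fun hT hS => isIso_mul hT hS
  one_mem' := isIso_one
  inv_mem' := fun hT => isIso_inv hT

/-- The light-like vector of a point of the sphere. -/
def li (x : Sph E) : ℝ × E := ((1 : ℝ), (x : E))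

theorem qf_li (x : Sph E) : qf (li x) = 0 := by
  simp [qf, li, norm_coe]

theorem bf_iso {T : (ℝ × E) ≃L[ℝ] (ℝ × E)} (hT : IsIso T) (v w : ℝ × E) :
    bf (T v) (T w) = bf v w := by
  have h1 := qf_add (T v) (T w)
  have h2 := qf_add v w
  rw [← map_add, hT.1, hT.1, hT.1] at h1
  linarith

theorem iso_li {T : (ℝ × E) ≃L[ℝ] (ℝ × E)} (hT : IsIso T) (x : Sph E) :
    0 < (T (li x)).1 ∧ ‖(T (li x)).2‖ = (T (li x)).1 := by
  have hcl : T (li x) ∈ closure (Lc E) := by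
    have h1 : MapsTo (fun v : ℝ × E => T v) (Lc E) (Lc E) := fun v hv => isIso_pres hT hv
    refine h1.closure T.continuous ?_
    rw [closure_Lc]
    simp [li, norm_coe]
  rw [closure_Lc] at hcl
  have hcl' : ‖(T (li x)).2‖ ≤ (T (li x)).1 := hcl
  have hq : qf (T (li x)) = 0 := by rw [hT.1, qf_li]
  unfold qf at hq
  have h0 := norm_nonneg (T (li x)).2
  have heq : ‖(T (li x)).2‖ = (T (li x)).1 := by nlinarith
  refine ⟨lt_of_le_of_ne (h0.trans hcl') fun h => ?_, heq⟩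
  have h2 : T (li x) = 0 := by
    ext1
    · exact h.symm
    · rw [← h] at heq
      exact norm_eq_zero.1 heq
  have h3 : li x = 0 := by
    have := T.map_eq_zero_iff.1 h2
    exact this
  have h4 : (1 : ℝ) = 0 := congrArg Prod.fst h3
  norm_num at h4

/-- The action on the sphere. -/
noncomputable def sa (T : IsoGrp E) (x : Sph E) : Sph E :=
  ⟨((T : (ℝ × E) ≃L[ℝ] (ℝ × E)) (li x)).1⁻¹ • ((T : (ℝ × E) ≃L[ℝ] (ℝ × E)) (li x)).2, by
    obtain ⟨h1, h2⟩ := iso_li T.2 x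
    rw [mem_sphere_zero_iff_norm, norm_smul, h2, norm_inv, Real.norm_of_nonneg h1.le,
      inv_mul_cancel₀ h1.ne']⟩

theorem sa_spec (T : IsoGrp E) (x : Sph E) :
    (T : (ℝ × E) ≃L[ℝ] (ℝ × E)) (li x) =
      ((T : (ℝ × E) ≃L[ℝ] (ℝ × E)) (li x)).1 • li (sa T x) := by
  obtain ⟨h1, -⟩ := iso_li T.2 x
  ext1
  · simp [li]
  · change _ = _ • (_⁻¹ • _)
    rw [smul_smul, mul_inv_cancel₀ h1.ne', one_smul]

theorem sa_eq {T : IsoGrp E} {x z : Sph E} {c : ℝ} (hc : 0 < c)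
    (h : (T : (ℝ × E) ≃L[ℝ] (ℝ × E)) (li x) = c • li z) : sa T x = z := by
  apply Subtype.ext
  change ((T : (ℝ × E) ≃L[ℝ] (ℝ × E)) (li x)).1⁻¹ • ((T : (ℝ × E) ≃L[ℝ] (ℝ × E)) (li x)).2 = z
  rw [h]
  change (c * 1)⁻¹ • (c • (z : E)) = z
  rw [mul_one, smul_smul, inv_mul_cancel₀ hc.ne', one_smul]

noncomputable instance : MulAction (IsoGrp E) (Sph E) where
  smul := sa
  one_smul x := by
    change sa 1 x = x
    refine sa_eq one_pos ?_
    rw [one_smul]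
    rfl
  mul_smul T S x := by
    change sa (T * S) x = sa T (sa S x)
    refine sa_eq (c := ((S : (ℝ × E) ≃L[ℝ] (ℝ × E)) (li x)).1 *
      ((T : (ℝ × E) ≃L[ℝ] (ℝ × E)) (li (sa S x))).1) ?_ ?_
    · exact mul_pos (iso_li S.2 x).1 (iso_li T.2 _).1
    · change (T : (ℝ × E) ≃L[ℝ] (ℝ × E)) ((S : (ℝ × E) ≃L[ℝ] (ℝ × E)) (li x)) = _
      conv_lhs => rw [sa_spec S x, map_smul, sa_spec T (sa S x)]
      rw [smul_smul]

theorem smul_spec (T : IsoGrp E) (x : Sph E) :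
    ∃ c : ℝ, 0 < c ∧ (T : (ℝ × E) ≃L[ℝ] (ℝ × E)) (li x) = c • li (T • x) :=
  ⟨_, (iso_li T.2 x).1, sa_spec T x⟩

theorem smul_eq_of {T : IsoGrp E} {x z : Sph E} {c : ℝ} (hc : 0 < c)
    (h : (T : (ℝ × E) ≃L[ℝ] (ℝ × E)) (li x) = c • li z) : T • x = z := sa_eq hc h

theorem continuous_li : Continuous (li : Sph E → ℝ × E) := by
  unfold li
  fun_prop

theorem continuous_smul_left (T : IsoGrp E) : Continuous fun x : Sph E => T • x := by
  refine Continuous.subtype_mk ?_ _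
  have h1 : Continuous fun x : Sph E => (T : (ℝ × E) ≃L[ℝ] (ℝ × E)) (li x) :=
    (T : (ℝ × E) ≃L[ℝ] (ℝ × E)).continuous.comp continuous_li
  exact (h1.fst.inv₀ fun x => (iso_li T.2 x).1.ne').smul h1.snd

end

end Pool.TH345.LC
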