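import Pool.Agent.TH345.LC.B

/-! An isometry which fixes the points of a nonempty open subset of the sphere is the identity. -/

set_option autoImplicit false

open Filter Topology Set Pool.Agent.TH289.C

namespace Pool.TH345.LC

section

variable {E : Type} [NormedAddCommGroup E] [InnerProductSpace ℝ E]

theorem norm_circ {y : Sph E} {v : E} (hv : ‖v‖ = 1) (h0 : inner ℝ (y : E) v = 0) (θ : ℝ) :
    ‖Real.cos θ • (y : E) + Real.sin θ • v‖ = 1 := by
  have h1 : ‖Real.cos θ • (y : E) + Real.sin θ • v‖ ^ 2 = 1 := by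
    rw [norm_add_sq_real, norm_smul, norm_smul, inner_smul_left, inner_smul_right, h0, hv,
      norm_coe]
    simp only [Real.norm_eq_abs, mul_one, sq_abs, mul_zero]
    rw [add_zero]
    exact Real.cos_sq_add_sin_sq θ
  have h2 := norm_nonneg (Real.cos θ • (y : E) + Real.sin θ • v)
  nlinarith

/-- A point of the great circle. -/
noncomputable def circ {y : Sph E} {v : E} (hv : ‖v‖ = 1) (h0 : inner ℝ (y : E) v = 0) (θ : ℝ) :
    Sph E :=
  ⟨Real.cos θ • (y : E) + Real.sin θ • v, by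
    rw [mem_sphere_zero_iff_norm]; exact norm_circ hv h0 θ⟩

theorem exists_theta {y : Sph E} {v : E} (hv : ‖v‖ = 1) (h0 : inner ℝ (y : E) v = 0)
    {O : Set (Sph E)} (hO : IsOpen O) (hy : y ∈ O) :
    ∃ θ : ℝ, 0 < θ ∧ θ < 1 ∧ circ hv h0 θ ∈ O ∧ circ hv h0 (-θ) ∈ O := by
  have hc : Continuous (circ hv h0) := by
    unfold circ
    refine Continuous.subtype_mk ?_ _
    fun_prop
  have hz : circ hv h0 0 = y := by
    apply Subtype.ext
    simp [circ]
  have h1 : ∀ᶠ θ in 𝓝 (0 : ℝ), circ hv h0 θ ∈ O :=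
    hc.continuousAt.eventually_mem (hO.mem_nhds (by rw [hz]; exact hy))
  have h2 : ∀ᶠ θ in 𝓝 (0 : ℝ), circ hv h0 (-θ) ∈ O := by
    have hc' : Continuous fun θ => circ hv h0 (-θ) := hc.comp continuous_neg
    refine hc'.continuousAt.eventually_mem (hO.mem_nhds ?_)
    change circ hv h0 (-0) ∈ O
    rw [neg_zero, hz]; exact hy
  have h3 : ∀ᶠ θ in 𝓝[>] (0 : ℝ), circ hv h0 θ ∈ O ∧ circ hv h0 (-θ) ∈ O :=
    (h1.and h2).filter_mono nhdsWithin_le_nhds
  have h4 : ∀ᶠ θ in 𝓝[>] (0 : ℝ), θ < 1 :=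
    (eventually_lt_nhds one_pos).filter_mono nhdsWithin_le_nhds
  have h5 : ∀ᶠ θ in 𝓝[>] (0 : ℝ), 0 < θ := self_mem_nhdsWithin
  obtain ⟨θ, ⟨h6, h7⟩, h8, h9⟩ := (h3.and (h4.and h5)).exists
  exact ⟨θ, h9, h8, h6, h7⟩

theorem exists_perp (hE : 2 ≤ Module.finrank ℝ E) (y : Sph E) :
    ∃ v : E, ‖v‖ = 1 ∧ inner ℝ (y : E) v = 0 := by
  have h1 : ∃ w : E, w ∉ Submodule.span ℝ {(y : E)} := by
    by_contra hcon
    push Not at hcon
    have h2 : Submodule.span ℝ {(y : E)} = ⊤ := Submodule.eq_top_iff'.2 hcon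
    have h3 : Module.finrank ℝ (Submodule.span ℝ {(y : E)}) ≤ 1 := by
      have := finrank_span_le_card (R := ℝ) ({(y : E)} : Set E)
      simpa using this
    rw [h2, finrank_top] at h3
    omega
  obtain ⟨w, hw⟩ := h1
  set v' : E := w - (inner ℝ (y : E) w : ℝ) • (y : E) with hv'
  have hne : v' ≠ 0 := by
    intro h
    apply hw
    rw [sub_eq_zero] at h
    rw [h]
    exact Submodule.smul_mem _ _ (Submodule.mem_span_singleton_self _)
  have hin : inner ℝ (y : E) v' = 0 := by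
    rw [hv', inner_sub_right, inner_smul_right, real_inner_self_eq_norm_sq, norm_coe]
    simp
  refine ⟨‖v'‖⁻¹ • v', ?_, ?_⟩
  · rw [norm_smul, norm_inv, norm_norm, inv_mul_cancel₀ (norm_ne_zero_iff.2 hne)]
  · rw [inner_smul_right, hin, mul_zero]

theorem bf_smul (a b : ℝ) (v w : ℝ × E) : bf (a • v) (b • w) = a * b * bf v w := by
  unfold bf
  simp only [Prod.smul_fst, Prod.smul_snd, inner_smul_left, inner_smul_right, smul_eq_mul]
  simp
  ring

theorem bf_li (x y : Sph E) : bf (li x) (li y) = 1 - inner ℝ (x : E) (y : E) := by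
  simp [bf, li]

theorem mul_eq_one {T : IsoGrp E} {x y : Sph E} {a b : ℝ}
    (hx : (T : (ℝ × E) ≃L[ℝ] (ℝ × E)) (li x) = a • li x)
    (hy : (T : (ℝ × E) ≃L[ℝ] (ℝ × E)) (li y) = b • li y) (hne : inner ℝ (x : E) (y : E) ≠ (1 : ℝ)) :
    a * b = 1 := by
  have h1 := bf_iso T.2 (li x) (li y)
  rw [hx, hy, bf_smul, bf_li] at h1
  have h2 : (1 : ℝ) - inner ℝ (x : E) (y : E) ≠ 0 := sub_ne_zero.2 hne.symm
  exact mul_right_cancel₀ h2 (by rw [h1, one_mul])

theorem li_fixed (hE : 2 ≤ Module.finrank ℝ E) {T : IsoGrp E} {O : Set (Sph E)} (hO : IsOpen O)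
    (hfix : ∀ y ∈ O, T • y = y) {y : Sph E} (hy : y ∈ O) :
    (T : (ℝ × E) ≃L[ℝ] (ℝ × E)) (li y) = li y := by
  obtain ⟨v, hv, h0⟩ := exists_perp hE y
  obtain ⟨θ, hθ0, hθ1, hp, hm⟩ := exists_theta hv h0 hO hy
  obtain ⟨a, ha, hay⟩ := smul_spec T y
  obtain ⟨b, hb, hby⟩ := smul_spec T (circ hv h0 θ)
  obtain ⟨c, hc, hcy⟩ := smul_spec T (circ hv h0 (-θ))
  rw [hfix _ hy] at hay
  rw [hfix _ hp] at hby
  rw [hfix _ hm] at hcy
  have hs : 0 < Real.sin θ := Real.sin_pos_of_pos_of_lt_pi hθ0 (by linarith [Real.pi_gt_three])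
  have hcs := Real.cos_sq_add_sin_sq θ
  have hcos : Real.cos θ < 1 := by nlinarith [Real.cos_le_one θ]
  have i1 : inner ℝ (y : E) (circ hv h0 θ : E) = Real.cos θ := by
    simp only [circ]
    rw [inner_add_right, inner_smul_right, inner_smul_right, h0, real_inner_self_eq_norm_sq,
      norm_coe]
    simp
  have i2 : inner ℝ (y : E) (circ hv h0 (-θ) : E) = Real.cos θ := by
    simp only [circ]
    rw [inner_add_right, inner_smul_right, inner_smul_right, h0, real_inner_self_eq_norm_sq,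
      norm_coe]
    simp
  have i3 : inner ℝ (circ hv h0 θ : E) (circ hv h0 (-θ) : E) =
      Real.cos θ ^ 2 - Real.sin θ ^ 2 := by
    simp only [circ]
    have h0' : inner ℝ v (y : E) = 0 := by rw [real_inner_comm]; exact h0
    simp only [inner_add_left, inner_add_right, inner_smul_left, inner_smul_right, h0, h0',
      real_inner_self_eq_norm_sq, norm_coe, hv, Real.cos_neg, Real.sin_neg]
    simp
    ring
  have e1 := mul_eq_one hay hby (by rw [i1]; exact hcos.ne)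
  have e2 := mul_eq_one hay hcy (by rw [i2]; exact hcos.ne)
  have e3 := mul_eq_one hby hcy (by rw [i3]; nlinarith)
  have e4 : b = c := mul_left_cancel₀ ha.ne' (by rw [e1, e2])
  have e5 : b = 1 := by rw [← e4] at e3; nlinarith
  have e6 : a = 1 := by rw [e5, mul_one] at e1; exact e1
  rw [hay, e6, one_smul]

theorem eq_one_of_fix (hE : 2 ≤ Module.finrank ℝ E) {T : IsoGrp E} {O : Set (Sph E)}
    (hO : IsOpen O) (hne : O.Nonempty) (hfix : ∀ y ∈ O, T • y = y) : T = 1 := by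
  obtain ⟨y, hy⟩ := hne
  set S : Submodule ℝ (ℝ × E) := LinearMap.eqLocus
    (((T : (ℝ × E) ≃L[ℝ] (ℝ × E)) : (ℝ × E) →L[ℝ] (ℝ × E)) : (ℝ × E) →ₗ[ℝ] (ℝ × E))
    LinearMap.id with hS
  have hmem : ∀ v : ℝ × E, v ∈ S ↔ (T : (ℝ × E) ≃L[ℝ] (ℝ × E)) v = v := fun v => Iff.rfl
  have hli : ∀ z ∈ O, li z ∈ S := fun z hz => (hmem _).2 (li_fixed hE hO hfix hz)
  have hperp : ∀ v : E, ‖v‖ = 1 → inner ℝ (y : E) v = 0 →
      ((0 : ℝ), v) ∈ S ∧ ((0 : ℝ), (y : E)) ∈ S := by
    intro v hv h0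
    obtain ⟨θ, hθ0, hθ1, hp, hm⟩ := exists_theta hv h0 hO hy
    have hs : 0 < Real.sin θ := Real.sin_pos_of_pos_of_lt_pi hθ0 (by linarith [Real.pi_gt_three])
    have hcs := Real.cos_sq_add_sin_sq θ
    have hcos : Real.cos θ < 1 := by nlinarith [Real.cos_le_one θ]
    have h1 := S.sub_mem (hli _ hp) (hli _ hm)
    have h2 : li (circ hv h0 θ) - li (circ hv h0 (-θ)) = (2 * Real.sin θ) • ((0 : ℝ), v) := by
      ext1
      · simp [li]
      · simp only [li, circ, Prod.snd_sub, Prod.smul_snd, Real.cos_neg, Real.sin_neg]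
        module
    rw [h2] at h1
    have h3 := S.sub_mem (S.add_mem (hli _ hp) (hli _ hm)) (S.smul_mem (2 : ℝ) (hli _ hy))
    have h4 : li (circ hv h0 θ) + li (circ hv h0 (-θ)) - (2 : ℝ) • li y =
        (2 * (Real.cos θ - 1)) • ((0 : ℝ), (y : E)) := by
      ext1
      · simp [li]
        norm_num
      · simp only [li, circ, Prod.snd_sub, Prod.snd_add, Prod.smul_snd, Real.cos_neg,
          Real.sin_neg]
        module
    rw [h4] at h3
    refine ⟨(S.smul_mem_iff (by positivity)).1 h1, (S.smul_mem_iff ?_).1 h3⟩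
    have : Real.cos θ - 1 < 0 := by linarith
    intro h
    linarith
  obtain ⟨v0, hv0, hv0'⟩ := exists_perp hE y
  have hy0 := (hperp v0 hv0 hv0').2
  have hbase : ((1 : ℝ), (0 : E)) ∈ S := by
    have h1 := S.sub_mem (hli _ hy) hy0
    have h2 : li y - ((0 : ℝ), (y : E)) = ((1 : ℝ), (0 : E)) := by
      ext1 <;> simp [li]
    rwa [h2] at h1
  have hall : ∀ u : E, ((0 : ℝ), u) ∈ S := by
    intro u
    set u' : E := u - (inner ℝ (y : E) u : ℝ) • (y : E) with hu'
    have hin : inner ℝ (y : E) u' = 0 := by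
      rw [hu', inner_sub_right, inner_smul_right, real_inner_self_eq_norm_sq, norm_coe]
      simp
    have h1 : ((0 : ℝ), u') ∈ S := by
      by_cases hz : u' = 0
      · rw [hz]; exact S.zero_mem
      · have h2 := (hperp (‖u'‖⁻¹ • u') (by
          rw [norm_smul, norm_inv, norm_norm, inv_mul_cancel₀ (norm_ne_zero_iff.2 hz)])
          (by rw [inner_smul_right, hin, mul_zero])).1
        have h3 := S.smul_mem ‖u'‖ h2
        have h4 : ‖u'‖ • ((0 : ℝ), ‖u'‖⁻¹ • u') = ((0 : ℝ), u') := by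
          ext1
          · simp
          · simp only [Prod.smul_snd]
            rw [smul_smul, mul_inv_cancel₀ (norm_ne_zero_iff.2 hz), one_smul]
        rwa [h4] at h3
    have h5 := S.add_mem h1 (S.smul_mem (inner ℝ (y : E) u : ℝ) hy0)
    have h6 : ((0 : ℝ), u') + (inner ℝ (y : E) u : ℝ) • ((0 : ℝ), (y : E)) = ((0 : ℝ), u) := by
      ext1
      · simp
      · simp [hu']
    rwa [h6] at h5
  apply Subtype.ext
  ext1
  ext1 w
  have h1 := S.add_mem (S.smul_mem w.1 hbase) (hall w.2)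
  have h2 : w.1 • ((1 : ℝ), (0 : E)) + ((0 : ℝ), w.2) = w := by
    ext1 <;> simp
  rw [h2] at h1
  exact (hmem w).1 h1

theorem eq_of_eqOn (hE : 2 ≤ Module.finrank ℝ E) {T T' : IsoGrp E} {O : Set (Sph E)}
    (hO : IsOpen O) (hne : O.Nonempty) (h : ∀ y ∈ O, T • y = T' • y) : T = T' := by
  have h1 : T'⁻¹ * T = 1 := by
    refine eq_one_of_fix hE hO hne fun y hy => ?_
    rw [mul_smul, h y hy, inv_smul_smul]
  exact (inv_mul_eq_one.1 h1).symm

end

end Pool.TH345.LC
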