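import Pool.Agent.TH345.LC.C
import Pool.Agent.TH345.LC.A

/-! Finite sets can be moved into an open set. -/

set_option autoImplicit false

open Filter Topology Set Pool.Agent.TH289.C

namespace Pool.TH345.LC

section

variable {E : Type} [NormedAddCommGroup E] [InnerProductSpace ℝ E]

theorem inner_circ {y : Sph E} {v : E} (hv : ‖v‖ = 1) (h0 : inner ℝ (y : E) v = 0) (θ : ℝ) :
    inner ℝ (y : E) (circ hv h0 θ : E) = Real.cos θ := by
  simp only [circ]
  rw [inner_add_right, inner_smul_right, inner_smul_right, h0, real_inner_self_eq_norm_sq,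
    norm_coe]
  simp

/-- The antipode. -/
def anti (y : Sph E) : Sph E := ⟨-(y : E), by
  rw [mem_sphere_zero_iff_norm, norm_neg, norm_coe]⟩

theorem exists_triple (hE : 2 ≤ Module.finrank ℝ E) (y : Sph E) {r : ℝ} (hr : 0 < r) :
    ∃ z w : Sph E, y ≠ z ∧ z ≠ w ∧ y ≠ w ∧ dist z y < r := by
  obtain ⟨v, hv, h0⟩ := exists_perp hE y
  obtain ⟨θ, hθ0, hθ1, hp, hm⟩ := exists_theta hv h0 (Metric.isOpen_ball (x := y) (ε := r))
    (Metric.mem_ball_self hr)
  have hs : 0 < Real.sin θ := Real.sin_pos_of_pos_of_lt_pi hθ0 (by linarith [Real.pi_gt_three])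
  have hcs := Real.cos_sq_add_sin_sq θ
  have hcos : Real.cos θ < 1 := by nlinarith [Real.cos_le_one θ]
  have hcos0 : 0 < Real.cos θ := Real.cos_pos_of_mem_Ioo
    ⟨by linarith [Real.pi_gt_three], by linarith [Real.pi_gt_three]⟩
  have hi := inner_circ hv h0 θ
  have hyy : inner ℝ (y : E) (y : E) = (1 : ℝ) := by
    rw [real_inner_self_eq_norm_sq, norm_coe]; norm_num
  have hya : inner ℝ (y : E) (anti y : E) = (-1 : ℝ) := by
    change inner ℝ (y : E) (-(y : E)) = (-1 : ℝ)
    rw [inner_neg_right, hyy]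
  refine ⟨circ hv h0 θ, anti y, ?_, ?_, ?_, hp⟩
  · intro h
    rw [← h, hyy] at hi
    linarith
  · intro h
    rw [h, hya] at hi
    linarith
  · intro h
    rw [← h, hyy] at hya
    norm_num at hya

theorem exists_move [FiniteDimensional ℝ E] (hE : 2 ≤ Module.finrank ℝ E) {G : Type} [Group G]
    {α : G →* (Sph E ≃ₜ Sph E)} (hα : IsConvergenceAction α) (hco : CocompactOnTriples α)
    (horb : ∀ x, (Set.range fun g => α g x).Infinite) {U : Set (Sph E)} (hU : IsOpen U)
    (hne : U.Nonempty) : ∀ P : Set (Sph E), P.Finite → ∃ h : G, ∀ x ∈ P, α h x ∈ U := by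
  intro P hP
  obtain ⟨ξ, hξ⟩ := hne
  obtain ⟨ε, hε, hco'⟩ := hco
  have h1 : ∀ n : ℕ, ∃ (g : G) (t : Fin 3 → Sph E), Near ξ (1 / ((n : ℝ) + 1)) t ∧
      ε ≤ sep (act α g⁻¹ t) := by
    intro n
    obtain ⟨z, w, h1, h2, h3, h4⟩ := exists_triple hE ξ (r := 1 / ((n : ℝ) + 1)) (by positivity)
    obtain ⟨k, hk1, hk2, hk3⟩ := hco' ξ z w h1 h2 h3
    refine ⟨k⁻¹, ![ξ, z, w], ⟨0, 1, by decide, ?_, ?_⟩, ?_⟩
    · simp only [Matrix.cons_val_zero, dist_self]
      positivity
    · simpa using h4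
    · rw [inv_inv]
      apply le_sep
      intro i j hij
      fin_cases i <;> fin_cases j
      · exact absurd rfl hij
      · exact hk1
      · exact hk3
      · exact hk1.trans (dist_comm _ _).le
      · exact absurd rfl hij
      · exact hk2
      · exact hk3.trans (dist_comm _ _).le
      · exact hk2.trans (dist_comm _ _).le
      · exact absurd rfl hij
  choose g t hnear hsep using h1
  obtain ⟨φ, hφ, b, hb⟩ := attract_of_near hα hε g t hnear hsep
  obtain ⟨y, ⟨g', hg'⟩, hy⟩ := (horb b).exists_notMem_finite hP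
  have hg'' : α g' b ∉ P := by
    rw [show α g' b = y from hg']; exact hy
  have hW : ((fun x => α g'⁻¹ x) '' P)ᶜ ∈ 𝓝 b := by
    refine (hP.image _).isClosed.isOpen_compl.mem_nhds ?_
    rintro ⟨x, hx, hxb⟩
    apply hg''
    rw [← hxb]
    change α g' (α g'⁻¹ x) ∈ P
    rw [← act_mul', mul_inv_cancel, act_one']
    exact hx
  obtain ⟨n, hn⟩ := (hb U (hU.mem_nhds hξ) _ hW).exists
  refine ⟨g (φ n) * g'⁻¹, fun x hx => ?_⟩
  rw [act_mul']
  apply hn
  intro h
  exact h ⟨x, hx, rfl⟩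

end

end Pool.TH345.LC
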