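import Pool.Agent.TH345.LC.D

/-! Cocompactness on hyperbolic space. -/

set_option autoImplicit false

open Filter Topology Set Pool.Agent.TH289.C

namespace Pool.TH345.LC

section

variable {E : Type} [NormedAddCommGroup E] [InnerProductSpace ℝ E]

theorem bf_add_left (v v' w : ℝ × E) : bf (v + v') w = bf v w + bf v' w := by
  unfold bf
  simp only [Prod.fst_add, Prod.snd_add, inner_add_left]
  ring

theorem bf_smul_left (a : ℝ) (v w : ℝ × E) : bf (a • v) w = a * bf v w := by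
  unfold bf
  simp only [Prod.smul_fst, Prod.smul_snd, real_inner_smul_left, smul_eq_mul]
  ring

theorem bf_smul_right (a : ℝ) (v w : ℝ × E) : bf v (a • w) = a * bf v w := by
  unfold bf
  simp only [Prod.smul_fst, Prod.smul_snd, real_inner_smul_right, smul_eq_mul]
  ring

theorem qf_sub_smul (w u : ℝ × E) (l : ℝ) : qf (w - l • u) = qf w - 2 * l * bf w u + l ^ 2 * qf u := by
  unfold qf bf
  simp only [Prod.fst_sub, Prod.snd_sub, Prod.smul_fst, Prod.smul_snd, smul_eq_mul]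
  rw [norm_sub_sq_real, norm_smul, real_inner_smul_right, mul_pow, Real.norm_eq_abs, sq_abs]
  ring

theorem bf_self (u : ℝ × E) : bf u u = qf u := by
  unfold bf qf
  rw [real_inner_self_eq_norm_sq]
  ring

/-- The reflection in `u`. -/
noncomputable def refl (u : ℝ × E) : (ℝ × E) →ₗ[ℝ] (ℝ × E) where
  toFun w := w - (2 * bf w u / qf u) • u
  map_add' v w := by
    rw [bf_add_left]
    module
  map_smul' a v := by
    rw [bf_smul_left]
    simp only [RingHom.id_apply]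
    module

theorem refl_apply (u w : ℝ × E) : refl u w = w - (2 * bf w u / qf u) • u := rfl

theorem bf_refl {u : ℝ × E} (hu : qf u ≠ 0) (w : ℝ × E) : bf (refl u w) u = - bf w u := by
  rw [refl_apply, sub_eq_add_neg, bf_add_left, ← neg_smul, bf_smul_left, bf_self]
  field_simp
  ring

theorem refl_refl {u : ℝ × E} (hu : qf u ≠ 0) (w : ℝ × E) : refl u (refl u w) = w := by
  rw [refl_apply u (refl u w), bf_refl hu, refl_apply]
  module

theorem qf_refl {u : ℝ × E} (hu : qf u ≠ 0) (w : ℝ × E) : qf (refl u w) = qf w := by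
  rw [refl_apply, qf_sub_smul]
  field_simp
  ring

theorem exists_iso [FiniteDimensional ℝ E] {v : ℝ × E} (hv : v ∈ Hyp E) :
    ∃ T : IsoGrp E, (T : (ℝ × E) ≃L[ℝ] (ℝ × E)) ((1 : ℝ), (0 : E)) = v := by
  obtain ⟨hv1, hv2⟩ := hv
  have hqo : qf ((1 : ℝ), (0 : E)) = 1 := by simp [qf]
  by_cases h : v = ((1 : ℝ), (0 : E))
  · exact ⟨1, h.symm⟩
  · set o : ℝ × E := ((1 : ℝ), (0 : E)) with ho
    set u : ℝ × E := o - v with hu
    have hbo : bf o v = v.1 := by simp [bf, ho]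
    have hqu : qf u = 2 - 2 * v.1 := by
      have h1 := qf_sub_smul o v 1
      rw [one_smul] at h1
      rw [hu, h1, hqo, hv1, hbo]
      ring
    have hv11 : v.1 ≠ 1 := by
      intro h1
      apply h
      unfold qf at hv1
      rw [h1] at hv1
      have h2 : ‖v.2‖ = 0 := by nlinarith [norm_nonneg v.2]
      ext1
      · exact h1
      · exact norm_eq_zero.1 h2
    have hqu0 : qf u ≠ 0 := by
      rw [hqu]
      intro h1
      apply hv11
      linarith
    set L : (ℝ × E) ≃L[ℝ] (ℝ × E) :=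
      (LinearEquiv.ofInvolutive (refl u) (refl_refl hqu0)).toContinuousLinearEquiv with hL
    have hLa : ∀ w, L w = refl u w := fun w => rfl
    have hbu : bf o u = 1 - v.1 := by
      simp [bf, ho, hu]
    have hLo : L o = v := by
      rw [hLa, refl_apply, hbu, hqu]
      have h3 : 2 * (1 - v.1) / (2 - 2 * v.1) = 1 := by
        rw [div_eq_one_iff_eq]
        · ring
        · rw [← hqu]; exact hqu0
      rw [h3, one_smul, hu]
      abel
    refine ⟨⟨L, ⟨fun w => by rw [hLa, qf_refl hqu0], ?_⟩⟩, hLo⟩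
    change 0 < (L o).1
    rw [hLo]
    exact hv2

theorem isCompact_hyp [FiniteDimensional ℝ E] (R : ℝ) :
    IsCompact {w : ℝ × E | w ∈ Hyp E ∧ w.1 ≤ R} := by
  have heq : {w : ℝ × E | w ∈ Hyp E ∧ w.1 ≤ R} =
      {w : ℝ × E | w.1 ^ 2 - ‖w.2‖ ^ 2 = 1} ∩ ({w : ℝ × E | 0 ≤ w.1} ∩ {w : ℝ × E | w.1 ≤ R}) := by
    ext w
    constructor
    · rintro ⟨⟨h1, h2⟩, h3⟩
      exact ⟨h1, h2.le, h3⟩
    · rintro ⟨h1, h2, h3⟩
      have h1' : w.1 ^ 2 - ‖w.2‖ ^ 2 = 1 := h1
      have h2' : 0 ≤ w.1 := h2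
      refine ⟨⟨h1, lt_of_le_of_ne h2' fun h => ?_⟩, h3⟩
      rw [← h] at h1'
      nlinarith [norm_nonneg w.2]
  rw [heq]
  have hclosed : IsClosed ({w : ℝ × E | w.1 ^ 2 - ‖w.2‖ ^ 2 = 1} ∩
      ({w : ℝ × E | 0 ≤ w.1} ∩ {w : ℝ × E | w.1 ≤ R})) :=
    (isClosed_eq (by fun_prop) continuous_const).inter
      ((isClosed_le continuous_const (by fun_prop)).inter (isClosed_le (by fun_prop) continuous_const))
  refine Metric.isCompact_of_isClosed_isBounded hclosed ?_
  refine (Metric.isBounded_iff_subset_closedBall (0 : ℝ × E)).2 ⟨|R|, ?_⟩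
  rintro w ⟨h1, h2, h3⟩
  have h1' : w.1 ^ 2 - ‖w.2‖ ^ 2 = 1 := h1
  have h2' : 0 ≤ w.1 := h2
  have h3' : w.1 ≤ R := h3
  rw [mem_closedBall_zero_iff, Prod.norm_def, max_le_iff]
  have h4 : w.1 ≤ |R| := h3'.trans (le_abs_self R)
  refine ⟨by rw [Real.norm_of_nonneg h2']; exact h4, ?_⟩
  have h5 : ‖w.2‖ ≤ w.1 := by nlinarith [norm_nonneg w.2]
  exact h5.trans h4

theorem bf_li_eq (x y : Sph E) : bf (li x) (li y) = ‖(x : E) - (y : E)‖ ^ 2 / 2 := by
  rw [bf_li, norm_sub_sq_real, norm_coe, norm_coe]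
  ring

theorem bf_li_pos {x y : Sph E} (h : x ≠ y) : 0 < bf (li x) (li y) := by
  rw [bf_li_eq]
  have : 0 < ‖(x : E) - (y : E)‖ := norm_pos_iff.2 (sub_ne_zero.2 fun h' => h (Subtype.ext h'))
  positivity

theorem norm_sub_le_two (x y : Sph E) : ‖(x : E) - (y : E)‖ ≤ 2 := by
  have := norm_sub_le (x : E) (y : E)
  rw [norm_coe, norm_coe] at this
  linarith

/-- The estimate. -/
theorem estimate {S : IsoGrp E} {t s : Fin 3 → Sph E} (hs : ∀ i, s i = S • t i) {κ δ : ℝ}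
    (hκ : 0 < κ) (hδ : 0 < δ) (ht : ∀ i j, i ≠ j → κ ≤ bf (li (t i)) (li (t j)))
    (hsep : ∀ i j, i ≠ j → δ ≤ dist (s i) (s j)) :
    ((S : (ℝ × E) ≃L[ℝ] (ℝ × E)) ((1 : ℝ), (0 : E))).1 ≤ 32 / (κ * δ ^ 3) := by
  set w := (S : (ℝ × E) ≃L[ℝ] (ℝ × E)) ((1 : ℝ), (0 : E)) with hw
  have hspec : ∀ i, ∃ c : ℝ, 0 < c ∧ (S : (ℝ × E) ≃L[ℝ] (ℝ × E)) (li (t i)) = c • li (s i) := by
    intro i
    rw [hs i]
    exact smul_spec S (t i)
  choose c hc0 hc using hspec
  have hdist : ∀ i j, dist (s i) (s j) = ‖(s i : E) - (s j : E)‖ := fun i j => by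
    rw [Subtype.dist_eq, dist_eq_norm]
  have h1 : ∀ i, c i * bf w (li (s i)) = 1 := by
    intro i
    rw [← bf_smul_right, ← hc i, hw, bf_iso S.2]
    simp [bf, li]
  have h2 : ∀ i j, c i * c j * bf (li (s i)) (li (s j)) = bf (li (t i)) (li (t j)) := by
    intro i j
    rw [← bf_smul, ← hc i, ← hc j, bf_iso S.2]
  have h3 : ∀ i j, i ≠ j → κ ≤ c i * c j * 2 := by
    intro i j hij
    have h4 := ht i j hij
    rw [← h2 i j, bf_li_eq] at h4
    have h5 := norm_sub_le_two (s i) (s j)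
    have h6 : 0 < c i * c j := mul_pos (hc0 i) (hc0 j)
    have h7 : ‖(s i : E) - (s j : E)‖ ^ 2 / 2 ≤ 2 := by
      nlinarith [norm_nonneg ((s i : E) - (s j : E))]
    nlinarith
  have h4 : ∀ i j, i ≠ j → c i * c j * δ ^ 2 ≤ 4 := by
    intro i j hij
    have h5 := h2 i j
    rw [bf_li_eq, bf_li_eq] at h5
    have h6 := norm_sub_le_two (t i) (t j)
    have h7 := hsep i j hij
    rw [hdist] at h7
    have h8 : 0 < c i * c j := mul_pos (hc0 i) (hc0 j)
    have h9 : δ ^ 2 ≤ ‖(s i : E) - (s j : E)‖ ^ 2 := by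
      have := norm_nonneg ((s i : E) - (s j : E))
      nlinarith
    have h10 : ‖(t i : E) - (t j : E)‖ ^ 2 ≤ 4 := by
      nlinarith [norm_nonneg ((t i : E) - (t j : E))]
    nlinarith
  have h5 : ∀ i j k, i ≠ j → j ≠ k → i ≠ k → κ * δ ≤ 4 * c i := by
    intro i j k hij hjk hik
    have a1 := h3 i j hij
    have a2 := h3 i k hik
    have a3 := h4 j k hjk
    have a4 := hc0 i
    have a5 := hc0 j
    have a6 := hc0 k
    have a7 : κ ^ 2 ≤ 4 * (c i ^ 2 * (c j * c k)) := by nlinarith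
    have a8 : κ ^ 2 * δ ^ 2 ≤ 16 * c i ^ 2 := by
      have a9 : κ ^ 2 * δ ^ 2 ≤ 4 * (c i ^ 2 * (c j * c k)) * δ ^ 2 :=
        mul_le_mul_of_nonneg_right a7 (sq_nonneg δ)
      have a10 : 4 * c i ^ 2 * (c j * c k * δ ^ 2) ≤ 4 * c i ^ 2 * 4 :=
        mul_le_mul_of_nonneg_left a3 (by positivity)
      nlinarith
    have a11 : (κ * δ) ^ 2 ≤ (4 * c i) ^ 2 := by nlinarith
    exact (sq_le_sq₀ (by positivity) (by positivity)).1 a11
  have hB : ∀ i j k, i ≠ j → j ≠ k → i ≠ k → bf w (li (s i)) ≤ 4 / (κ * δ) := by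
    intro i j k hij hjk hik
    have a1 := h5 i j k hij hjk hik
    have a2 := h1 i
    have a3 := hc0 i
    have a4 : 0 < bf w (li (s i)) := by
      by_contra hcon
      push Not at hcon
      nlinarith
    rw [le_div_iff₀ (by positivity)]
    nlinarith
  have b0 := hB 0 1 2 (by decide) (by decide) (by decide)
  have b1 := hB 1 0 2 (by decide) (by decide) (by decide)
  have hwq : qf w = 1 := by
    rw [hw, S.2.1]
    simp [qf]
  have hw0 : 0 < w.1 := S.2.2
  have hw2 : ‖w.2‖ ≤ w.1 := by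
    unfold qf at hwq
    nlinarith [norm_nonneg w.2]
  have hsum : bf w (li (s 0)) + bf w (li (s 1)) =
      2 * w.1 - inner ℝ w.2 ((s 0 : E) + (s 1 : E)) := by
    simp only [bf, li, mul_one]
    rw [inner_add_right]
    ring
  have hq : ‖(s 0 : E) + (s 1 : E)‖ ≤ 2 - δ ^ 2 / 4 := by
    have a1 := hsep 0 1 (by decide)
    rw [hdist] at a1
    have a2 : ‖(s 0 : E) + (s 1 : E)‖ ^ 2 = 4 - ‖(s 0 : E) - (s 1 : E)‖ ^ 2 := by
      rw [norm_add_sq_real, norm_sub_sq_real, norm_coe, norm_coe]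
      ring
    have a3 : δ ^ 2 ≤ ‖(s 0 : E) - (s 1 : E)‖ ^ 2 := by
      have := norm_nonneg ((s 0 : E) - (s 1 : E))
      nlinarith
    have a4 := norm_sub_le_two (s 0) (s 1)
    have a5 : δ ≤ 2 := a1.trans a4
    have a6 : 0 ≤ 2 - δ ^ 2 / 4 := by nlinarith
    have a7 : ‖(s 0 : E) + (s 1 : E)‖ ^ 2 ≤ (2 - δ ^ 2 / 4) ^ 2 := by
      rw [a2]
      nlinarith [sq_nonneg (δ ^ 2)]
    exact (sq_le_sq₀ (norm_nonneg _) a6).1 a7
  have hin : inner ℝ w.2 ((s 0 : E) + (s 1 : E)) ≤ w.1 * (2 - δ ^ 2 / 4) := by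
    have a1 := real_inner_le_norm w.2 ((s 0 : E) + (s 1 : E))
    have a2 := norm_nonneg w.2
    have a3 := norm_nonneg ((s 0 : E) + (s 1 : E))
    exact a1.trans (mul_le_mul hw2 hq a3 hw0.le)
  have hfin : w.1 * (δ ^ 2 / 4) ≤ 2 * (4 / (κ * δ)) := by
    nlinarith
  rw [le_div_iff₀ (by positivity)]
  have h6 : 2 * (4 / (κ * δ)) * (κ * δ) = 8 := by
    field_simp
    norm_num
  have h7 : w.1 * (δ ^ 2 / 4) * (κ * δ) ≤ 8 := by
    rw [← h6]
    exact mul_le_mul_of_nonneg_right hfin (by positivity)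
  nlinarith

theorem cocompact [FiniteDimensional ℝ E] (hE : 2 ≤ Module.finrank ℝ E) {G : Type} [Group G]
    {α : G →* (Sph E ≃ₜ Sph E)} (hco : CocompactOnTriples α) {ρ : G →* IsoGrp E}
    {f : Sph E → Sph E} (hfc : Continuous f) (hfi : Function.Injective f)
    (hfs : Function.Surjective f) (hf : ∀ g x, f (α g x) = ρ g • f x) :
    ∃ K ⊆ Hyp E, IsCompact K ∧
      ∀ v ∈ Hyp E, ∃ g, ((ρ g : IsoGrp E) : (ℝ × E) ≃L[ℝ] (ℝ × E)) v ∈ K := by
  obtain ⟨ε, hε, hco'⟩ := hco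
  -- separation in the image
  obtain ⟨δ, hδ, hδ'⟩ : ∃ δ : ℝ, 0 < δ ∧ ∀ x y : Sph E, ε ≤ dist x y → δ ≤ dist (f x) (f y) := by
    have hcomp : IsCompact {p : Sph E × Sph E | ε ≤ dist p.1 p.2} :=
      (isClosed_le continuous_const (by fun_prop)).isCompact
    rcases Set.eq_empty_or_nonempty {p : Sph E × Sph E | ε ≤ dist p.1 p.2} with h | h
    · refine ⟨1, one_pos, fun x y hxy => ?_⟩
      have : (x, y) ∈ ({p : Sph E × Sph E | ε ≤ dist p.1 p.2} : Set _) := hxy
      rw [h] at this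
      exact absurd this (Set.notMem_empty _)
    · obtain ⟨p, hp, hmin⟩ := hcomp.exists_isMinOn h
        (f := fun p : Sph E × Sph E => dist (f p.1) (f p.2)) (by fun_prop)
      refine ⟨dist (f p.1) (f p.2), ?_, fun x y hxy => hmin (a := (x, y)) hxy⟩
      apply dist_pos.2
      intro h'
      have := hfi h'
      have hp' : ε ≤ dist p.1 p.2 := hp
      rw [this, dist_self] at hp'
      linarith
  obtain ⟨y₀⟩ : Nonempty (Sph E) := by
    have : Nontrivial E := Module.nontrivial_of_finrank_pos (R := ℝ) (by omega)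
    obtain ⟨x, hx⟩ := exists_ne (0 : E)
    refine ⟨⟨‖x‖⁻¹ • x, ?_⟩⟩
    rw [mem_sphere_zero_iff_norm, norm_smul, norm_inv, norm_norm,
      inv_mul_cancel₀ (norm_ne_zero_iff.2 hx)]
  obtain ⟨z₀, w₀, hd1, hd2, hd3, -⟩ := exists_triple hE y₀ one_pos
  set t : Fin 3 → Sph E := ![y₀, z₀, w₀] with ht
  have htne : ∀ i j, i ≠ j → t i ≠ t j := by
    intro i j hij
    fin_cases i <;> fin_cases j
    · exact absurd rfl hij
    · exact hd1
    · exact hd3
    · exact hd1.symm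
    · exact absurd rfl hij
    · exact hd2
    · exact hd3.symm
    · exact hd2.symm
    · exact absurd rfl hij
  obtain ⟨κ, hκ, hκ'⟩ : ∃ κ : ℝ, 0 < κ ∧ ∀ i j, i ≠ j → κ ≤ bf (li (t i)) (li (t j)) := by
    refine ⟨min (bf (li (t 0)) (li (t 1))) (min (bf (li (t 1)) (li (t 2)))
      (bf (li (t 0)) (li (t 2)))), ?_, ?_⟩
    · exact lt_min (bf_li_pos (htne 0 1 (by decide))) (lt_min (bf_li_pos (htne 1 2 (by decide)))
        (bf_li_pos (htne 0 2 (by decide))))
    · have hsymm : ∀ x y : Sph E, bf (li x) (li y) = bf (li y) (li x) := by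
        intro x y
        rw [bf_li, bf_li, real_inner_comm]
      intro i j hij
      fin_cases i <;> fin_cases j
      · exact absurd rfl hij
      · exact min_le_left _ _
      · exact (min_le_right _ _).trans (min_le_right _ _)
      · exact (min_le_left _ _).trans (hsymm _ _).le
      · exact absurd rfl hij
      · exact (min_le_right _ _).trans (min_le_left _ _)
      · exact ((min_le_right _ _).trans (min_le_right _ _)).trans (hsymm _ _).le
      · exact ((min_le_right _ _).trans (min_le_left _ _)).trans (hsymm _ _).le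
      · exact absurd rfl hij
  refine ⟨{w | w ∈ Hyp E ∧ w.1 ≤ 32 / (κ * δ ^ 3)}, fun w hw => hw.1, isCompact_hyp _, ?_⟩
  intro v hv
  obtain ⟨T, hT⟩ := exists_iso hv
  choose x hx using fun i => hfs (T • t i)
  have hxne : ∀ i j, i ≠ j → x i ≠ x j := by
    intro i j hij h
    apply htne i j hij
    have h1 : T • t i = T • t j := by rw [← hx i, ← hx j, h]
    exact MulAction.injective T h1
  obtain ⟨g, hg1, hg2, hg3⟩ := hco' (x 0) (x 1) (x 2) (hxne 0 1 (by decide)) (hxne 1 2 (by decide))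
    (hxne 0 2 (by decide))
  refine ⟨g, ?_⟩
  have hval : ((ρ g * T : IsoGrp E) : (ℝ × E) ≃L[ℝ] (ℝ × E)) ((1 : ℝ), (0 : E)) =
      ((ρ g : IsoGrp E) : (ℝ × E) ≃L[ℝ] (ℝ × E)) v := by
    rw [← hT]; rfl
  have hmem : ((ρ g : IsoGrp E) : (ℝ × E) ≃L[ℝ] (ℝ × E)) v ∈ Hyp E := by
    rw [← hval]
    refine ⟨?_, (ρ g * T).2.2⟩
    rw [(ρ g * T).2.1]
    simp [qf]
  refine ⟨hmem, ?_⟩
  rw [← hval]
  refine estimate (S := ρ g * T) (t := t) (s := fun i => f (α g (x i))) (fun i => ?_) hκ hδ hκ' ?_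
  · rw [hf, hx, mul_smul]
  · intro i j hij
    apply hδ'
    fin_cases i <;> fin_cases j
    · exact absurd rfl hij
    · exact hg1
    · exact hg3
    · exact hg1.trans (dist_comm _ _).le
    · exact absurd rfl hij
    · exact hg2
    · exact hg3.trans (dist_comm _ _).le
    · exact hg2.trans (dist_comm _ _).le
    · exact absurd rfl hij

end

end Pool.TH345.LC
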