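import Pool.Agent.TH345.LC.E

/-! Local Moebius charts extend to conjugacies. -/

set_option autoImplicit false

open Filter Topology Set Pool.Agent.TH289.C

namespace Pool.TH345.LC

section

variable {E : Type} [NormedAddCommGroup E] [InnerProductSpace ℝ E]

theorem proper_hyp [FiniteDimensional ℝ E] {G : Type} [Group G]
    {α : G →* (Sph E ≃ₜ Sph E)} (hα : IsConvergenceAction α) {ρ : G →* IsoGrp E}
    {f : Sph E → Sph E} (hfc : Continuous f) (hf : ∀ g x, f (α g x) = ρ g • f x)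
    {z : Fin 3 → Sph E} (hz : ∀ i j, i ≠ j → f (z i) ≠ f (z j)) :
    ∀ K ⊆ Hyp E, IsCompact K →
      {g : G | ∃ v ∈ K, ((ρ g : IsoGrp E) : (ℝ × E) ≃L[ℝ] (ℝ × E)) v ∈ K}.Finite := by
  set τ := ContinuousLinearMap.fst ℝ ℝ E with hτ
  set ρ' : G →* ((ℝ × E) ≃L[ℝ] (ℝ × E)) := (IsoGrp E).subtype.comp ρ with hρ'
  have hS : IsStrictCone (Lc E) τ := isStrictCone_Lc
  have hHL : ∀ v ∈ Hyp E, v ∈ Lc E := fun v hv => mem_Lc_iff.2 ⟨by rw [hv.1]; exact one_pos, hv.2⟩
  have hposH : ∀ v ∈ Lc E, 0 < τ v := fun v hv => (mem_Lc_iff.1 hv).2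
  have heq : IsEquivariant (X := Sph E) α (Lc E) τ ρ' (fun x => li (f x)) := by
    refine ⟨continuous_li.comp hfc, fun x => Bd_Lc.2 ⟨rfl, norm_coe _⟩,
      fun g v hv => isIso_pres (ρ g).2 hv, fun g x => ?_⟩
    obtain ⟨c, hc, hc'⟩ := smul_spec (ρ g) (f x)
    change li (f (α g x)) = proj τ (((ρ g : IsoGrp E) : (ℝ × E) ≃L[ℝ] (ℝ × E)) (li (f x)))
    rw [hc', proj_smul hc.ne', hf]
    exact (proj_of_one (by rfl)).symm
  intro K hK hKc
  have hc : ContinuousOn (proj τ) K := fun v hv =>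
    (continuousAt_proj (hposH v (hHL v (hK hv))).ne').continuousWithinAt
  have h1 := proper (X := Sph E) hα hS heq (z := z) (fun i j hij h => hz i j hij (by
    have h2 : ((f (z i) : Sph E) : E) = (f (z j) : E) := congrArg Prod.snd h
    exact Subtype.ext h2)) (K := proj τ '' K) (hKc.image_of_continuousOn hc) (by
      rintro _ ⟨v, hv, rfl⟩
      exact proj_mem_Dom hS (hHL v (hK hv)) (hposH v (hHL v (hK hv))))
  refine h1.subset ?_
  rintro g ⟨v, hv, hgv⟩
  refine ⟨proj τ v, ⟨v, hv, rfl⟩, _, hgv, ?_⟩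
  have hp := hposH v (hHL v (hK hv))
  change proj τ (((ρ g : IsoGrp E) : (ℝ × E) ≃L[ℝ] (ℝ × E)) v) =
    proj τ (((ρ g : IsoGrp E) : (ℝ × E) ≃L[ℝ] (ℝ × E)) (proj τ v))
  conv_rhs => rw [proj.eq_1 τ v, map_smul, proj_smul (inv_ne_zero hp.ne')]

theorem main_local [FiniteDimensional ℝ E] (hE : 2 ≤ Module.finrank ℝ E) {G : Type} [Group G]
    {α : G →* (Sph E ≃ₜ Sph E)} (hα : IsConvergenceAction α) (hco : CocompactOnTriples α)
    (horb : ∀ x, (Set.range fun g => α g x).Infinite) {U : Set (Sph E)} (hU : IsOpen U)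
    (hne : U.Nonempty) (φ : Sph E → Sph E) (hc : ContinuousOn φ U) (hi : InjOn φ U)
    (ho : ∀ W ⊆ U, IsOpen W → IsOpen (φ '' W))
    (hloc : ∀ g : G, ∃ T : IsoGrp E, ∀ x ∈ U, α g x ∈ U → φ (α g x) = T • φ x) :
    ∃ (ρ : G →* IsoGrp E) (f : Sph E → Sph E), (∀ x ∈ U, f x = φ x) ∧
      (∀ g x, f (α g x) = ρ g • f x) ∧ IsHomeomorph f ∧
      (∀ K ⊆ Hyp E, IsCompact K →
        {g : G | ∃ v ∈ K, ((ρ g : IsoGrp E) : (ℝ × E) ≃L[ℝ] (ℝ × E)) v ∈ K}.Finite) ∧
      ∃ K ⊆ Hyp E, IsCompact K ∧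
        ∀ v ∈ Hyp E, ∃ g, ((ρ g : IsoGrp E) : (ℝ × E) ≃L[ℝ] (ℝ × E)) v ∈ K := by
  have hfp := exists_move hE hα hco horb hU hne
  obtain ⟨ρ, f, hfU, hf⟩ := extend (M := IsoGrp E) (Y := Sph E) α hU hne hfp φ hloc (by
    intro m m' W hW hWne hWU h
    refine eq_of_eqOn hE (ho W hWU hW) (hWne.image φ) ?_
    rintro _ ⟨x, hx, rfl⟩
    exact h x hx)
  have hform : ∀ (h : G) (x : Sph E), f x = (ρ h)⁻¹ • f (α h x) := by
    intro h x
    rw [hf, inv_smul_smul]
  have hmove : ∀ x : Sph E, ∃ h : G, α h x ∈ U := by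
    intro x
    obtain ⟨h, hh⟩ := hfp {x} (by simp)
    exact ⟨h, hh x (by simp)⟩
  have hcont : Continuous f := by
    rw [continuous_iff_continuousAt]
    intro x
    obtain ⟨h, hh⟩ := hmove x
    have h1 : ContinuousAt φ (α h x) := hc.continuousAt (hU.mem_nhds hh)
    have h2 : ContinuousAt (fun x => (ρ h)⁻¹ • φ (α h x)) x :=
      (continuous_smul_left (ρ h)⁻¹).continuousAt.comp
        (ContinuousAt.comp (f := fun x => α h x) h1 (α h).continuous.continuousAt)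
    refine h2.congr ?_
    filter_upwards [(hU.preimage (α h).continuous).mem_nhds hh] with x' hx'
    rw [hform h x', hfU _ hx']
  have hinj : Function.Injective f := by
    intro x y hxy
    obtain ⟨h, hh⟩ := hfp {x, y} (by simp)
    have h1 := hh x (by simp)
    have h2 := hh y (by simp)
    have h3 : φ (α h x) = φ (α h y) := by
      rw [← hfU _ h1, ← hfU _ h2, hf, hf, hxy]
    exact (α h).injective (hi h1 h2 h3)
  have hopen : IsOpenMap f := by
    rw [IsOpenMap]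
    intro W hW
    rw [isOpen_iff_mem_nhds]
    rintro _ ⟨x, hx, rfl⟩
    obtain ⟨h, hh⟩ := hmove x
    have h1 : IsOpen (α h '' W ∩ U) := ((α h).isOpenMap W hW).inter hU
    have h2 : IsOpen (φ '' (α h '' W ∩ U)) := ho _ inter_subset_right h1
    have h3 : IsOpen ((fun y => ρ h • y) ⁻¹' (φ '' (α h '' W ∩ U))) :=
      h2.preimage (continuous_smul_left (ρ h))
    refine mem_of_superset (h3.mem_nhds ?_) ?_
    · refine ⟨α h x, ⟨⟨x, hx, rfl⟩, hh⟩, ?_⟩
      rw [← hfU _ hh, hf]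
    · rintro y ⟨_, ⟨⟨x', hx', rfl⟩, hx'U⟩, hy⟩
      refine ⟨x', hx', ?_⟩
      rw [hform h x', hfU _ hx'U]
      have hy' : φ (α h x') = ρ h • y := hy
      rw [hy', inv_smul_smul]
  have hsurj : Function.Surjective f := by
    have hcS : CompactSpace (Sph E) := by
      have : ProperSpace E := FiniteDimensional.proper ℝ E
      exact isCompact_iff_compactSpace.1 (isCompact_sphere (0 : E) 1)
    have hrank : 1 < Module.rank ℝ E := by
      rw [← Module.finrank_eq_rank]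
      exact_mod_cast hE
    have hconn : PreconnectedSpace (Sph E) :=
      Subtype.preconnectedSpace (isPreconnected_sphere hrank 0 1)
    have hclopen : IsClopen (Set.range f) :=
      ⟨(isCompact_range hcont).isClosed, hopen.isOpen_range⟩
    obtain ⟨x₀, -⟩ := hne
    exact Set.range_eq_univ.1 (hclopen.eq_univ ⟨f x₀, x₀, rfl⟩)
  obtain ⟨y₀, hy₀⟩ := hne
  obtain ⟨z, w, h1, h2, h3, -⟩ := exists_triple hE y₀ one_pos
  refine ⟨ρ, f, hfU, hf, ⟨hcont, hopen, hinj, hsurj⟩, ?_, cocompact hE hco hcont hinj hsurj hf⟩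
  refine proper_hyp hα hcont hf (z := ![y₀, z, w]) ?_
  intro i j hij h
  have h4 := hinj h
  fin_cases i <;> fin_cases j
  · exact hij rfl
  · exact h1 h4
  · exact h3 h4
  · exact h1 h4.symm
  · exact hij rfl
  · exact h2 h4
  · exact h3 h4.symm
  · exact h2 h4.symm
  · exact hij rfl

end

end Pool.TH345.LC
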